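import Mathlib
import Pool.Agent.H92.TD.Defs

/-!
MP_5aa732_co, project TP92: C_5-free graphs in which every induced subgraph has a vertex whose non-neighbours induce a P_4-free graph.
-/

set_option autoImplicit false
set_option linter.unusedSectionVars false
set_option linter.unusedVariables false

namespace Pool.Agent.H92.TP

open SimpleGraph Finset Pool.Agent.H92.TD

/-- No induced path on four vertices inside the set `W`. -/
def NoP4 {V : Type} (G : SimpleGraph V) (W : Finset V) : Prop :=
  ∀ a ∈ W, ∀ b ∈ W, ∀ c ∈ W, ∀ d ∈ W, a ≠ c → b ≠ d → a ≠ d → G.Adj a b → G.Adj b c → G.Adj c d →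
    ¬ G.Adj a c → ¬ G.Adj b d → ¬ G.Adj a d → False

/-- `x` is bad for `v`: complete to an `m`-clique of neighbours of `v`. -/
def BadFor {V : Type} (G : SimpleGraph V) (m : ℕ) (v x : V) : Prop :=
  ∃ L : Finset V, G.IsNClique m L ∧ (∀ l ∈ L, G.Adj v l) ∧ ∀ l ∈ L, G.Adj x l

end Pool.Agent.H92.TP
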