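import Mathlib
import Pool.Agent.H92.TD.Defs
import Pool.Agent.H92.TP.PDefs

/-!
Row TP_NonBad.  G has no (m+2)-clique and no induced C_5, m ≥ 1, K an (m+1)-clique with Rem G K v (v outside K, no neighbour of v in K).  Then some k ∈ K is not bad for v.
PROOF.  Suppose all k ∈ K are bad, with m-cliques L_k ⊆ N(v), k complete to L_k.  K is nonempty and m ≥ 1, so N(v) is nonempty.  Choose y ∈ N(v) with |K.filter (y ~ ·)| maximal (`Finset.exists_max_image` on Nb G v).
y ∉ K (v ≁ K), so `not_complete` gives k ∈ K with y ≁ k.  Let l ∈ L_k: l ~ v, l ~ k, so l ≠ y.  CLAIM l ~ y.  Suppose l ≁ y.  For every p ∈ K with y ~ p: l ~ p, for otherwise  v, l, k, p, y  is an induced C_5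
(v~l, l~k, k~p (p ≠ k as y≁k), p~y, y~v; v≁k, l≁p, k≁y, p≁v, y≁l).  So the set for l contains the set for y and k in addition: larger, contradiction to maximality.
So y is adjacent to all of L_k, v is adjacent to all of insert y L_k, an (m+1)-clique: an (m+2)-clique, contradiction.
-/

set_option autoImplicit false
set_option linter.unusedSectionVars false
set_option linter.unusedVariables false

namespace Pool.Agent.H92.TP

open SimpleGraph Finset Pool.Agent.H92.TD

theorem exists_nonbad {V : Type} [Fintype V] {G : SimpleGraph V} {m : ℕ} (hm : 1 ≤ m)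
    (hf : G.CliqueFree (m + 2)) (h5 : C5free G) {v : V} {K : Finset V} (hK : G.IsNClique (m + 1) K)
    (hR : Rem G K v) : ∃ k ∈ K, ¬ BadFor G m v k := by
  classical
  by_contra hcon
  push Not at hcon
  have hKne : K.Nonempty := Finset.card_pos.1 (by rw [hK.2]; omega)
  obtain ⟨k0, hk0⟩ := hKne
  obtain ⟨L0, hL0, hv0, _⟩ := hcon k0 hk0
  have hL0ne : L0.Nonempty := Finset.card_pos.1 (by rw [hL0.2]; omega)
  obtain ⟨l0, hl0⟩ := hL0ne
  obtain ⟨y, hy, hmax⟩ := Finset.exists_max_image (Nb G v)
    (fun y => (K.filter (fun k => G.Adj y k)).card) ⟨l0, mem_Nb.2 (hv0 l0 hl0)⟩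
  rw [mem_Nb] at hy
  have hyK : y ∉ K := fun h => hR.2 y h hy
  obtain ⟨k, hk, hyk⟩ := not_complete hf hK hyK
  obtain ⟨L, hL, hvL, hkL⟩ := hcon k hk
  have key : ∀ l ∈ L, G.Adj y l := by
    intro l hl
    by_contra hyl
    have hsub : insert k (K.filter (fun p => G.Adj y p)) ⊆ K.filter (fun p => G.Adj l p) := by
      intro p hp
      rw [Finset.mem_insert] at hp
      rcases hp with rfl | hp
      · exact Finset.mem_filter.2 ⟨hk, (hkL l hl).symm⟩
      · rw [Finset.mem_filter] at hp
        refine Finset.mem_filter.2 ⟨hp.1, ?_⟩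
        by_contra hlp
        have hkp : k ≠ p := fun e => hyk (e ▸ hp.2)
        exact h5 v l k p y (hvL l hl) (hkL l hl).symm (hK.1 hk hp.1 hkp) hp.2.symm hy.symm
          (hR.2 k hk) hlp (fun h => hyk h.symm) (fun h => hR.2 p hp.1 h.symm) hyl
    have hnot : k ∉ K.filter (fun p => G.Adj y p) := fun h => hyk (Finset.mem_filter.1 h).2
    have h1 := Finset.card_le_card hsub
    rw [Finset.card_insert_of_notMem hnot] at h1
    have h2 : (K.filter (fun p => G.Adj l p)).card ≤ (K.filter (fun p => G.Adj y p)).card :=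
      hmax l (mem_Nb.2 (hvL l hl))
    omega
  have h1 : G.IsNClique (m + 1) (insert y L) := clique_insert hL key
  refine hf _ (clique_insert h1 (v := v) ?_)
  intro x hx
  rcases Finset.mem_insert.1 hx with rfl | hx
  · exact hy
  · exact hvL x hx

end Pool.Agent.H92.TP
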