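import Mathlib
import Pool.Agent.H92.TD.Defs
import Pool.Agent.H92.TP.PDefs

/-!
Row TP_Sein (Seinsche).  A vertex set W with at least two elements and no induced P_4 is the disjoint union of two nonempty sets which are anticomplete or complete.
PROOF.  Strong induction on |W| (for all graphs G on V; the hypothesis NoP4 passes to the complement: P_4 a b c d in Gᶜ is the P_4  b d a c of G).
Pick u ∈ W, W' := W.erase u.  |W'| = 1: W = {u, w}, partition {u}, {w}.  |W'| ≥ 2: by induction W' = W1 ∪ W2.
By symmetry (pass to Gᶜ: complete and anticomplete are exchanged) assume W1, W2 anticomplete (state this case as a lemma `sein_case` for all G).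
If u is adjacent to all of W': partition {u}, W' (complete).  Otherwise w ∈ W', u ≁ w.  Call C ⊆ W' closed if w ∈ C and there is no edge between C and W' \\ C.
The one of W1, W2 which contains w is closed and ≠ W'.  Let C be a closed set of least cardinality (`Finset.exists_min_image` on W'.powerset.filter); C ≠ W'.
 If u has no neighbour in C: partition C, W \\ C (anticomplete).   If u has no neighbour in W' \\ C: partition W' \\ C, insert u C (anticomplete; both nonempty).
 Otherwise z ∈ W' \\ C with u ~ z.  Let Y := C.filter (¬ u ~ ·) ∋ w, C \\ Y ≠ ∅.  Y is not closed (smaller than C), W' \\ Y = (C \\ Y) ∪ (W' \\ C), so there is y ∈ Y and x ∈ C \\ Y with x ~ y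
 (no edges between C and W' \\ C).  Then y, x, u, z is an induced P_4: y~x, x~u, u~z, y≁u, x≁z, y≁z.  Contradiction.
-/

set_option autoImplicit false
set_option linter.unusedSectionVars false
set_option linter.unusedVariables false

namespace Pool.Agent.H92.TP

open SimpleGraph Finset Pool.Agent.H92.TD

def seinC {V : Type} (G : SimpleGraph V) (W : Finset V) : Prop :=
  ∃ W1 W2 : Finset V, W1.Nonempty ∧ W2.Nonempty ∧ Disjoint W1 W2 ∧ (∀ x, x ∈ W ↔ x ∈ W1 ∨ x ∈ W2) ∧
    ((∀ x ∈ W1, ∀ y ∈ W2, ¬ G.Adj x y) ∨ (∀ x ∈ W1, ∀ y ∈ W2, G.Adj x y))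

theorem sein_mono {V : Type} {G : SimpleGraph V} {W W' : Finset V} (h : W' ⊆ W) (hP : NoP4 G W) :
    NoP4 G W' := fun a ha b hb c hc d hd => hP a (h ha) b (h hb) c (h hc) d (h hd)

theorem sein_compl {V : Type} {G : SimpleGraph V} {W : Finset V} (hP : NoP4 G W) : NoP4 Gᶜ W := by
  intro a ha b hb c hc d hd hac hbd had h1 h2 h3 h4 h5 h6
  rw [SimpleGraph.compl_adj] at h1 h2 h3 h4 h5 h6
  have k4 : G.Adj a c := by
    by_contra h
    exact h4 ⟨hac, h⟩
  have k5 : G.Adj b d := by
    by_contra h
    exact h5 ⟨hbd, h⟩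
  have k6 : G.Adj a d := by
    by_contra h
    exact h6 ⟨had, h⟩
  exact hP b hb d hd a ha c hc (Ne.symm h1.1) (Ne.symm h3.1) h2.1 k5 k6.symm k4
    (fun h => h1.2 h.symm) (fun h => h3.2 h.symm) h2.2

open Classical in
theorem sein_case {V : Type} (G : SimpleGraph V) (W' : Finset V) (u : V) (hu : u ∉ W')
    (W1 W2 : Finset V) (n1 : W1.Nonempty) (n2 : W2.Nonempty) (hd : Disjoint W1 W2)
    (hW : ∀ x, x ∈ W' ↔ x ∈ W1 ∨ x ∈ W2) (ha : ∀ x ∈ W1, ∀ y ∈ W2, ¬ G.Adj x y)
    (hP : NoP4 G (insert u W')) : seinC G (insert u W') := by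
  by_cases hall : ∀ w ∈ W', G.Adj u w
  · refine ⟨{u}, W', ⟨u, Finset.mem_singleton_self u⟩, ?_, ?_, ?_, Or.inr ?_⟩
    · obtain ⟨x, hx⟩ := n1
      exact ⟨x, (hW x).2 (Or.inl hx)⟩
    · exact Finset.disjoint_singleton_left.2 hu
    · intro x
      rw [Finset.mem_insert, Finset.mem_singleton]
    · intro x hx y hy
      rw [Finset.mem_singleton] at hx
      rw [hx]
      exact hall y hy
  · push Not at hall
    obtain ⟨w, hw, huw⟩ := hall
    set S : Finset (Finset V) := W'.powerset.filter
      (fun C => w ∈ C ∧ ∀ x ∈ C, ∀ y ∈ W', y ∉ C → ¬ G.Adj x y) with hS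
    have hmem : ∀ C : Finset V, C ∈ S ↔ C ⊆ W' ∧ w ∈ C ∧ ∀ x ∈ C, ∀ y ∈ W', y ∉ C → ¬ G.Adj x y := by
      intro C
      rw [hS, Finset.mem_filter, Finset.mem_powerset]
    have h0 : ∃ C ∈ S, ∃ q ∈ W', q ∉ C := by
      rcases (hW w).1 hw with h | h
      · obtain ⟨q, hq⟩ := n2
        refine ⟨W1, (hmem _).2 ⟨fun x hx => (hW x).2 (Or.inl hx), h, ?_⟩, q, (hW q).2 (Or.inr hq),
          fun h' => Finset.disjoint_left.1 hd h' hq⟩
        intro x hx y hy hy1
        exact ha x hx y (((hW y).1 hy).resolve_left hy1)
      · obtain ⟨q, hq⟩ := n1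
        refine ⟨W2, (hmem _).2 ⟨fun x hx => (hW x).2 (Or.inr hx), h, ?_⟩, q, (hW q).2 (Or.inl hq),
          fun h' => Finset.disjoint_left.1 hd hq h'⟩
        intro x hx y hy hy1 hxy
        exact ha y (((hW y).1 hy).resolve_right hy1) x hx hxy.symm
    obtain ⟨C0, hC0, q0, hq0, hq0'⟩ := h0
    obtain ⟨C, hC, hmin⟩ := Finset.exists_min_image S Finset.card ⟨C0, hC0⟩
    obtain ⟨hCW, hwC, hCc⟩ := (hmem C).1 hC
    have hprop : ∃ q ∈ W', q ∉ C := by
      by_contra h
      push Not at h
      have h1 : C0.card < C.card := by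
        apply Finset.card_lt_card
        rw [Finset.ssubset_iff_of_subset (fun x hx => h x (((hmem C0).1 hC0).1 hx))]
        exact ⟨q0, h q0 hq0, hq0'⟩
      exact absurd (hmin C0 hC0) (by omega)
    obtain ⟨q, hq, hqC⟩ := hprop
    have huC : u ∉ C := fun h => hu (hCW h)
    by_cases hA : ∀ x ∈ C, ¬ G.Adj u x
    · refine ⟨C, insert u W' \ C, ⟨w, hwC⟩, ⟨q, ?_⟩, Finset.disjoint_sdiff, ?_, Or.inl ?_⟩
      · rw [Finset.mem_sdiff, Finset.mem_insert]
        exact ⟨Or.inr hq, hqC⟩
      · intro x
        rw [Finset.mem_sdiff, Finset.mem_insert]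
        constructor
        · intro h
          by_cases hx : x ∈ C
          · exact Or.inl hx
          · exact Or.inr ⟨h, hx⟩
        · rintro (h | h)
          · exact Or.inr (hCW h)
          · exact h.1
      · intro x hx y hy
        rw [Finset.mem_sdiff, Finset.mem_insert] at hy
        rcases hy.1 with h | h
        · rw [h]
          exact fun h' => hA x hx h'.symm
        · exact hCc x hx y h hy.2
    · by_cases hB : ∀ x ∈ W', x ∉ C → ¬ G.Adj u x
      · refine ⟨W' \ C, insert u C, ⟨q, Finset.mem_sdiff.2 ⟨hq, hqC⟩⟩, ⟨u, Finset.mem_insert_self u C⟩,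
          ?_, ?_, Or.inl ?_⟩
        · rw [Finset.disjoint_left]
          intro x hx hx'
          rw [Finset.mem_sdiff] at hx
          rw [Finset.mem_insert] at hx'
          rcases hx' with h | h
          · exact hu (h ▸ hx.1)
          · exact hx.2 h
        · intro x
          rw [Finset.mem_sdiff, Finset.mem_insert, Finset.mem_insert]
          constructor
          · rintro (h | h)
            · exact Or.inr (Or.inl h)
            · by_cases hx : x ∈ C
              · exact Or.inr (Or.inr hx)
              · exact Or.inl ⟨h, hx⟩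
          · rintro (h | h | h)
            · exact Or.inr h.1
            · exact Or.inl h
            · exact Or.inr (hCW h)
        · intro x hx y hy
          rw [Finset.mem_sdiff] at hx
          rw [Finset.mem_insert] at hy
          rcases hy with h | h
          · rw [h]
            exact fun h' => hB x hx.1 hx.2 h'.symm
          · exact fun h' => hCc y h x hx.1 hx.2 h'.symm
      · exfalso
        push Not at hA hB
        obtain ⟨x0, hx0, hux0⟩ := hA
        obtain ⟨z, hz, hzC, huz⟩ := hB
        have hY : C.filter (fun x => ¬ G.Adj u x) ∉ S := by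
          intro h
          have h1 : (C.filter (fun x => ¬ G.Adj u x)).card < C.card := by
            apply Finset.card_lt_card
            rw [Finset.ssubset_iff_of_subset (Finset.filter_subset _ _)]
            refine ⟨x0, hx0, ?_⟩
            rw [Finset.mem_filter]
            exact fun h' => h'.2 hux0
          exact absurd (hmin _ h) (by omega)
        rw [hmem] at hY
        push Not at hY
        obtain ⟨y, hy, x, hx, hxY, hyx⟩ := hY
          (fun x hx => hCW (Finset.mem_filter.1 hx).1) (Finset.mem_filter.2 ⟨hwC, huw⟩)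
        rw [Finset.mem_filter] at hy
        have hxC : x ∈ C := by
          by_contra h
          exact hCc y hy.1 x hx h hyx
        have hux : G.Adj u x := by
          by_contra h
          exact hxY (Finset.mem_filter.2 ⟨hxC, h⟩)
        exact hP y (Finset.mem_insert_of_mem (hCW hy.1)) x (Finset.mem_insert_of_mem hx) u
          (Finset.mem_insert_self _ _) z (Finset.mem_insert_of_mem hz)
          (fun h => huC (h ▸ hy.1)) (fun h => hzC (h ▸ hxC)) (fun h => hzC (h ▸ hy.1)) hyx hux.symm huz
          (fun h => hy.2 h.symm) (hCc x hxC z hz hzC) (hCc y hy.1 z hz hzC)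

theorem sein_swap {V : Type} {G : SimpleGraph V} {W : Finset V} (h : seinC Gᶜ W) : seinC G W := by
  obtain ⟨W1, W2, n1, n2, hd, hW, h⟩ := h
  refine ⟨W1, W2, n1, n2, hd, hW, ?_⟩
  rcases h with h | h
  · right
    intro x hx y hy
    by_contra h'
    apply h x hx y hy
    rw [SimpleGraph.compl_adj]
    exact ⟨fun e => Finset.disjoint_left.1 hd hx (e ▸ hy), h'⟩
  · left
    intro x hx y hy
    have h1 := h x hx y hy
    rw [SimpleGraph.compl_adj] at h1
    exact h1.2

open Classical in
theorem sein_ind {V : Type} : ∀ n : ℕ, ∀ (G : SimpleGraph V) (W : Finset V), W.card = n → 2 ≤ n →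
    NoP4 G W → seinC G W := by
  intro n
  induction n with
  | zero =>
    intro G W _ h
    omega
  | succ n ih =>
    intro G W hn h2 hP
    obtain ⟨u, hu⟩ : W.Nonempty := Finset.card_pos.1 (by omega)
    have hc : (W.erase u).card = n := by
      rw [Finset.card_erase_of_mem hu]
      omega
    have hu' : u ∉ W.erase u := Finset.notMem_erase u W
    have hins : insert u (W.erase u) = W := Finset.insert_erase hu
    by_cases h1 : n = 1
    · obtain ⟨w, hw⟩ := Finset.card_eq_one.1 (hc.trans h1)
      have huw : u ≠ w := by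
        intro h
        apply hu'
        rw [hw, h]
        exact Finset.mem_singleton_self w
      refine ⟨{u}, {w}, ⟨u, Finset.mem_singleton_self u⟩, ⟨w, Finset.mem_singleton_self w⟩,
        Finset.disjoint_singleton.2 huw, ?_, ?_⟩
      · intro x
        rw [← hins, hw, Finset.mem_insert]
        rw [Finset.mem_singleton, Finset.mem_singleton]
      · by_cases h : G.Adj u w
        · right
          intro x hx y hy
          rw [Finset.mem_singleton] at hx hy
          rw [hx, hy]
          exact h
        · left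
          intro x hx y hy
          rw [Finset.mem_singleton] at hx hy
          rw [hx, hy]
          exact h
    · obtain ⟨W1, W2, n1, n2, hd, hW, h⟩ := ih G (W.erase u) hc (by omega)
        (sein_mono (Finset.erase_subset u W) hP)
      have hP' : NoP4 G (insert u (W.erase u)) := by
        rw [hins]
        exact hP
      rcases h with h | h
      · have := sein_case G (W.erase u) u hu' W1 W2 n1 n2 hd hW h hP'
        rw [hins] at this
        exact this
      · apply sein_swap
        have := sein_case Gᶜ (W.erase u) u hu' W1 W2 n1 n2 hd hW (fun x hx y hy h' => by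
          rw [SimpleGraph.compl_adj] at h'
          exact h'.2 (h x hx y hy)) (sein_compl hP')
        rw [hins] at this
        exact this

theorem seinsche {V : Type} [Fintype V] (G : SimpleGraph V) (W : Finset V) (h2 : 2 ≤ W.card)
    (hP : NoP4 G W) :
    ∃ W1 W2 : Finset V, W1.Nonempty ∧ W2.Nonempty ∧ Disjoint W1 W2 ∧ (∀ x, x ∈ W ↔ x ∈ W1 ∨ x ∈ W2) ∧
      ((∀ x ∈ W1, ∀ y ∈ W2, ¬ G.Adj x y) ∨ (∀ x ∈ W1, ∀ y ∈ W2, G.Adj x y)) := by
  exact sein_ind W.card G W rfl h2 hP

end Pool.Agent.H92.TP
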