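import Mathlib
import Pool.Agent.H92.TD.Defs
import Pool.Agent.H92.TP.PDefs
import Pool.Agent.H92.TP.Sein

/-!
Row TP_Cog.  W without induced P_4 and without (n+1)-clique; X a set (predicate) which meets every n-clique K ⊆ W.  Then some stable S ⊆ W ∩ X meets every n-clique K ⊆ W.
PROOF.  Strong induction on |W| (for all n).  |W| ≤ 1: S := W.filter X.  (n-clique K ⊆ W: K meets X, so K ∩ S ≠ ∅.)
|W| ≥ 2: `seinsche`: W = W1 ∪ W2, both smaller.
ANTICOMPLETE: n = 0 is impossible (K = ∅ does not meet X), so n ≥ 1 and every n-clique K ⊆ W lies in W1 or in W2 (pairwise adjacent vertices; K nonempty).  Induction gives S1, S2 (same n); S := S1 ∪ S2 is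
 stable because W1, W2 are anticomplete.
COMPLETE: n1 := largest size of a clique in W1, n2 := the same for W2 (max over powerset).  If K1, K2 are cliques of W1, W2 then K1 ∪ K2 is a clique of W, so n1 + n2 ≤ n.
 If n1 + n2 < n: there is no n-clique K ⊆ W (|K| = |K ∩ W1| + |K ∩ W2| ≤ n1 + n2), S := ∅.
 If n1 + n2 = n: (claim) for i = 1 or i = 2 every n_i-clique of W_i meets X: otherwise K1 (n1-clique of W1) and K2 (n2-clique of W2) avoid X and K1 ∪ K2 is an n-clique avoiding X.  Say i = 1 (i = 2 is symmetric: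
 make a helper lemma).  Induction for W1, n1 (no (n1+1)-clique in W1): S ⊆ W1 ∩ X stable meeting all n1-cliques of W1.  An n-clique K ⊆ W has |K ∩ W1| ≤ n1, |K ∩ W2| ≤ n2, so |K ∩ W1| = n1 and S meets K ∩ W1.
-/

set_option autoImplicit false
set_option linter.unusedSectionVars false
set_option linter.unusedVariables false

namespace Pool.Agent.H92.TP

open SimpleGraph Finset Pool.Agent.H92.TD

private theorem cog_union {V : Type} [DecidableEq V] {G : SimpleGraph V} {W1 W2 : Finset V} (hd : Disjoint W1 W2)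
    (hc : ∀ x ∈ W1, ∀ y ∈ W2, G.Adj x y) {n1 n2 : ℕ} {K1 K2 : Finset V} (h1 : K1 ⊆ W1) (h2 : K2 ⊆ W2)
    (hK1 : G.IsNClique n1 K1) (hK2 : G.IsNClique n2 K2) : G.IsNClique (n1 + n2) (K1 ∪ K2) := by
  refine ⟨?_, ?_⟩
  · intro x hx y hy hxy
    simp only [Finset.coe_union, Set.mem_union, Finset.mem_coe] at hx hy
    rcases hx with hx | hx <;> rcases hy with hy | hy
    · exact hK1.1 hx hy hxy
    · exact hc x (h1 hx) y (h2 hy)
    · exact (hc y (h1 hy) x (h2 hx)).symm
    · exact hK2.1 hx hy hxy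
  · rw [Finset.card_union_of_disjoint (Finset.disjoint_of_subset_left h1 (Finset.disjoint_of_subset_right h2 hd)),
      hK1.2, hK2.2]

private theorem cog_max {V : Type} (G : SimpleGraph V) (W : Finset V) :
    ∃ n : ℕ, (∃ K ⊆ W, G.IsNClique n K) ∧ ∀ K : Finset V, K ⊆ W → ¬ G.IsNClique (n + 1) K := by
  classical
  obtain ⟨K, hK, hm⟩ := Finset.exists_max_image (W.powerset.filter (fun K : Finset V => G.IsClique (K : Set V)))
    Finset.card ⟨∅, by simp⟩
  rw [Finset.mem_filter, Finset.mem_powerset] at hK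
  refine ⟨K.card, ⟨K, hK.1, hK.2, rfl⟩, fun L hL hL2 => ?_⟩
  have := hm L (by rw [Finset.mem_filter, Finset.mem_powerset]; exact ⟨hL, hL2.1⟩)
  rw [hL2.2] at this
  omega

private theorem cog_card {V : Type} [Fintype V] {G : SimpleGraph V} {W : Finset V} {n : ℕ}
    (h : ∀ K : Finset V, K ⊆ W → ¬ G.IsNClique (n + 1) K) {K : Finset V} (hK : K ⊆ W)
    (hc : G.IsClique (K : Set V)) : K.card ≤ n := by
  by_contra hlt
  push Not at hlt
  obtain ⟨L, hL, hL2⟩ := sub_clique (n := n + 1) hc hlt
  exact h L (hL.trans hK) hL2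

private theorem cog_split {V : Type} [Fintype V] [DecidableEq V] {G : SimpleGraph V} {W W1 W2 : Finset V}
    (hW : ∀ x, x ∈ W ↔ x ∈ W1 ∨ x ∈ W2) {n1 n2 : ℕ}
    (h1 : ∀ K : Finset V, K ⊆ W1 → ¬ G.IsNClique (n1 + 1) K)
    (h2 : ∀ K : Finset V, K ⊆ W2 → ¬ G.IsNClique (n2 + 1) K)
    {K : Finset V} (hK : K ⊆ W) (hc : G.IsClique (K : Set V)) :
    K.card ≤ (K ∩ W1).card + n2 ∧ (K ∩ W1).card ≤ n1 := by
  have hc1 : G.IsClique ((K ∩ W1 : Finset V) : Set V) :=
    hc.subset (by exact_mod_cast Finset.inter_subset_left)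
  have hc2 : G.IsClique ((K ∩ W2 : Finset V) : Set V) :=
    hc.subset (by exact_mod_cast Finset.inter_subset_left)
  have e2 := cog_card h2 Finset.inter_subset_right hc2
  have e3 : K.card ≤ (K ∩ W1).card + (K ∩ W2).card := by
    refine le_trans (Finset.card_le_card ?_) (Finset.card_union_le _ _)
    intro x hx
    rw [Finset.mem_union, Finset.mem_inter, Finset.mem_inter]
    rcases (hW x).1 (hK hx) with h | h
    · exact Or.inl ⟨hx, h⟩
    · exact Or.inr ⟨hx, h⟩
  exact ⟨by omega, cog_card h1 Finset.inter_subset_right hc1⟩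

private theorem cog_step {V : Type} [Fintype V] {G : SimpleGraph V} {X : V → Prop} {W W1 W2 : Finset V}
    (hW : ∀ x, x ∈ W ↔ x ∈ W1 ∨ x ∈ W2) {n1 n2 : ℕ}
    (h1 : ∀ K : Finset V, K ⊆ W1 → ¬ G.IsNClique (n1 + 1) K)
    (h2 : ∀ K : Finset V, K ⊆ W2 → ¬ G.IsNClique (n2 + 1) K)
    (hS : ∃ S : Finset V, S ⊆ W1 ∧ (∀ s ∈ S, X s) ∧ (∀ s ∈ S, ∀ t ∈ S, ¬ G.Adj s t) ∧
      ∀ K : Finset V, K ⊆ W1 → G.IsNClique n1 K → ∃ k ∈ K, k ∈ S) :
    ∃ S : Finset V, S ⊆ W ∧ (∀ s ∈ S, X s) ∧ (∀ s ∈ S, ∀ t ∈ S, ¬ G.Adj s t) ∧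
      ∀ K : Finset V, K ⊆ W → G.IsNClique (n1 + n2) K → ∃ k ∈ K, k ∈ S := by
  classical
  obtain ⟨S, hS1, hS2, hS3, hS4⟩ := hS
  refine ⟨S, fun x hx => (hW x).2 (Or.inl (hS1 hx)), hS2, hS3, fun K hK hKc => ?_⟩
  obtain ⟨e1, e2⟩ := cog_split hW h1 h2 hK hKc.1
  rw [hKc.2] at e1
  obtain ⟨k, hk, hkS⟩ := hS4 (K ∩ W1) Finset.inter_subset_right
    ⟨hKc.1.subset (by exact_mod_cast Finset.inter_subset_left), by omega⟩
  exact ⟨k, (Finset.mem_inter.1 hk).1, hkS⟩

theorem cog_stable {V : Type} [Fintype V] (G : SimpleGraph V) (X : V → Prop) (W : Finset V) (n : ℕ)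
    (hP : NoP4 G W) (hf : ∀ K : Finset V, K ⊆ W → ¬ G.IsNClique (n + 1) K)
    (hX : ∀ K : Finset V, K ⊆ W → G.IsNClique n K → ∃ k ∈ K, X k) :
    ∃ S : Finset V, S ⊆ W ∧ (∀ s ∈ S, X s) ∧ (∀ s ∈ S, ∀ t ∈ S, ¬ G.Adj s t) ∧
      ∀ K : Finset V, K ⊆ W → G.IsNClique n K → ∃ k ∈ K, k ∈ S := by
  classical
  obtain ⟨N, hN⟩ : ∃ N : ℕ, W.card = N := ⟨_, rfl⟩
  induction N using Nat.strong_induction_on generalizing W n with
  | _ N ih =>
    rcases Nat.lt_or_ge W.card 2 with hlt | h2
    · refine ⟨W.filter X, Finset.filter_subset _ _, fun s hs => (Finset.mem_filter.1 hs).2, ?_, ?_⟩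
      · intro s hs t ht hst
        have h3 := Finset.card_le_one.1 (Nat.lt_succ_iff.1 hlt) s (Finset.mem_filter.1 hs).1 t
          (Finset.mem_filter.1 ht).1
        exact hst.ne h3
      · intro K hK hKc
        obtain ⟨k, hk, hkX⟩ := hX K hK hKc
        exact ⟨k, hk, Finset.mem_filter.2 ⟨hK hk, hkX⟩⟩
    · obtain ⟨W1, W2, hn1, hn2, hd, hW, hor⟩ := seinsche G W h2 hP
      have hWu : W = W1 ∪ W2 := by
        ext x
        rw [Finset.mem_union]
        exact hW x
      have hcard : W.card = W1.card + W2.card := by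
        rw [hWu, Finset.card_union_of_disjoint hd]
      have c1 := hn1.card_pos
      have c2 := hn2.card_pos
      have s1 : W1 ⊆ W := fun x hx => (hW x).2 (Or.inl hx)
      have s2 : W2 ⊆ W := fun x hx => (hW x).2 (Or.inr hx)
      have hP1 : NoP4 G W1 := fun a ha b hb c hc d hdd => hP a (s1 ha) b (s1 hb) c (s1 hc) d (s1 hdd)
      have hP2 : NoP4 G W2 := fun a ha b hb c hc d hdd => hP a (s2 ha) b (s2 hb) c (s2 hc) d (s2 hdd)
      rcases hor with hanti | hcomp
      · have hn0 : n ≠ 0 := by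
          rintro rfl
          obtain ⟨k, hk, _⟩ := hX ∅ (Finset.empty_subset _) ⟨by simp, rfl⟩
          exact absurd hk (Finset.notMem_empty _)
        obtain ⟨S1, a1, a2, a3, a4⟩ := ih W1.card (by omega) W1 n hP1 (fun K hK => hf K (hK.trans s1))
          (fun K hK => hX K (hK.trans s1)) rfl
        obtain ⟨S2, b1, b2, b3, b4⟩ := ih W2.card (by omega) W2 n hP2 (fun K hK => hf K (hK.trans s2))
          (fun K hK => hX K (hK.trans s2)) rfl
        refine ⟨S1 ∪ S2, Finset.union_subset (a1.trans s1) (b1.trans s2), ?_, ?_, ?_⟩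
        · intro s hs
          rcases Finset.mem_union.1 hs with h | h
          · exact a2 s h
          · exact b2 s h
        · intro s hs t ht hst
          rcases Finset.mem_union.1 hs with h | h <;> rcases Finset.mem_union.1 ht with h' | h'
          · exact a3 s h t h' hst
          · exact hanti s (a1 h) t (b1 h') hst
          · exact hanti t (a1 h') s (b1 h) hst.symm
          · exact b3 s h t h' hst
        · intro K hK hKc
          have hne : K.Nonempty := by
            rw [← Finset.card_pos, hKc.2]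
            omega
          obtain ⟨k0, hk0⟩ := hne
          rcases (hW k0).1 (hK hk0) with h | h
          · have hsub : K ⊆ W1 := by
              intro k hk
              rcases (hW k).1 (hK hk) with h' | h'
              · exact h'
              · exfalso
                have hne : k0 ≠ k := by
                  rintro rfl
                  exact (Finset.disjoint_left.1 hd h) h'
                exact hanti k0 h k h' (hKc.1 hk0 hk hne)
            obtain ⟨k, hk, hkS⟩ := a4 K hsub hKc
            exact ⟨k, hk, Finset.mem_union_left _ hkS⟩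
          · have hsub : K ⊆ W2 := by
              intro k hk
              rcases (hW k).1 (hK hk) with h' | h'
              · exfalso
                have hne : k ≠ k0 := by
                  rintro rfl
                  exact (Finset.disjoint_left.1 hd h') h
                exact hanti k h' k0 h (hKc.1 hk hk0 hne)
              · exact h'
            obtain ⟨k, hk, hkS⟩ := b4 K hsub hKc
            exact ⟨k, hk, Finset.mem_union_right _ hkS⟩
      · obtain ⟨n1, ⟨K1, hK1, hK1c⟩, m1⟩ := cog_max G W1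
        obtain ⟨n2, ⟨K2, hK2, hK2c⟩, m2⟩ := cog_max G W2
        have hle : n1 + n2 ≤ n := by
          have h3 := cog_union hd hcomp hK1 hK2 hK1c hK2c
          have h4 := cog_card hf (Finset.union_subset (hK1.trans s1) (hK2.trans s2)) h3.1
          rwa [h3.2] at h4
        rcases hle.lt_or_eq with hlt | heq
        · refine ⟨∅, Finset.empty_subset _, by simp, by simp, ?_⟩
          intro K hK hKc
          exfalso
          obtain ⟨e1, e2⟩ := cog_split hW m1 m2 hK hKc.1
          rw [hKc.2] at e1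
          omega
        · subst heq
          by_cases h1 : ∀ K : Finset V, K ⊆ W1 → G.IsNClique n1 K → ∃ k ∈ K, X k
          · exact cog_step hW m1 m2 (ih W1.card (by omega) W1 n1 hP1 m1 h1 rfl)
          · push Not at h1
            obtain ⟨L1, hL1, hL1c, hL1X⟩ := h1
            have h5 : ∀ K : Finset V, K ⊆ W2 → G.IsNClique n2 K → ∃ k ∈ K, X k := by
              intro K hK hKc
              obtain ⟨k, hk, hkX⟩ := hX (L1 ∪ K) (Finset.union_subset (hL1.trans s1) (hK.trans s2))
                (cog_union hd hcomp hL1 hK hL1c hKc)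
              rcases Finset.mem_union.1 hk with h | h
              · exact absurd hkX (hL1X k h)
              · exact ⟨k, h, hkX⟩
            rw [add_comm n1 n2]
            exact cog_step (fun x => (hW x).trans or_comm) m2 m1 (ih W2.card (by omega) W2 n2 hP2 m2 h5 rfl)

end Pool.Agent.H92.TP
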