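import Mathlib
import Pool.Agent.H92.TD.Defs
import Pool.Agent.H92.TP.PDefs
import Pool.Agent.H92.TP.Cog
import Pool.Agent.H92.TP.NonBad

/-!
Row TP_Col.  G without (m+2)-clique and C_5, m ≥ 1, v a vertex with NoP4 on its non-neighbours.  Then there is a colouring without monochromatic (m+1)-clique.
PROOF.  W := univ.filter (x ≠ v ∧ ¬ v ~ x).  `cog_stable G (fun x => ¬ BadFor G m v x) W (m+1)` (hypothesis hX from `exists_nonbad`: K ⊆ W gives Rem G K v) gives S.
c x := decide (v ~ x ∨ x ∈ S).  Let K be an (m+1)-clique with c = b on K.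
b = true: S ∩ K has at most one element (stable).  None: K ⊆ N(v), insert v K is an (m+2)-clique.  One, s: K.erase s is an m-clique of neighbours of v, complete to s, so BadFor G m v s, contradiction.
b = false: no member of K is a neighbour of v.  If v ∈ K: K has another member (m + 1 ≥ 2), adjacent to v: contradiction.  So K ⊆ W, so S meets K, contradiction.
-/

set_option autoImplicit false
set_option linter.unusedSectionVars false
set_option linter.unusedVariables false

namespace Pool.Agent.H92.TP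

open SimpleGraph Finset Pool.Agent.H92.TD

theorem col_of_noP4 {V : Type} [Fintype V] {G : SimpleGraph V} {m : ℕ} (hm : 1 ≤ m)
    (hf : G.CliqueFree (m + 2)) (h5 : C5free G) (v : V)
    (hv : ∀ a b c d : V, a ≠ v → b ≠ v → c ≠ v → d ≠ v → ¬ G.Adj v a → ¬ G.Adj v b → ¬ G.Adj v c →
      ¬ G.Adj v d → a ≠ c → b ≠ d → a ≠ d → G.Adj a b → G.Adj b c → G.Adj c d →
      ¬ G.Adj a c → ¬ G.Adj b d → ¬ G.Adj a d → False) :
    ∃ c : V → Bool, ∀ K : Finset V, G.IsNClique (m + 1) K → ∀ b : Bool, ¬ ∀ x ∈ K, c x = b := by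
  classical
  obtain ⟨W, hW⟩ : ∃ W : Finset V, ∀ x, x ∈ W ↔ x ≠ v ∧ ¬ G.Adj v x :=
    ⟨Finset.univ.filter (fun x => x ≠ v ∧ ¬ G.Adj v x), fun x => by simp⟩
  obtain ⟨S, hSW, hSX, hSst, hSm⟩ := cog_stable G (fun x => ¬ BadFor G m v x) W (m + 1)
    (by
      intro a ha b hb c hc d hd
      rw [hW] at ha hb hc hd
      exact hv a b c d ha.1 hb.1 hc.1 hd.1 ha.2 hb.2 hc.2 hd.2)
    (fun K _ => hf K)
    (by
      intro K hKW hK
      refine exists_nonbad hm hf h5 hK ⟨?_, ?_⟩
      · intro hvK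
        exact ((hW v).1 (hKW hvK)).1 rfl
      · intro k hk
        exact ((hW k).1 (hKW hk)).2)
  refine ⟨fun x => decide (G.Adj v x ∨ x ∈ S), ?_⟩
  intro K hK b hb
  cases b with
  | true =>
    have hb' : ∀ x ∈ K, G.Adj v x ∨ x ∈ S := fun x hx => of_decide_eq_true (hb x hx)
    by_cases hex : ∃ s ∈ K, s ∈ S
    · obtain ⟨s, hsK, hsS⟩ := hex
      refine hSX s hsS ⟨K.erase s, ?_, ?_, ?_⟩
      · refine ⟨hK.1.subset (by exact_mod_cast Finset.erase_subset _ _), ?_⟩
        rw [Finset.card_erase_of_mem hsK, hK.2]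
        rfl
      · intro l hl
        rw [Finset.mem_erase] at hl
        rcases hb' l hl.2 with h | h
        · exact h
        · exact absurd (hK.1 hsK hl.2 (Ne.symm hl.1)) (hSst s hsS l h)
      · intro l hl
        rw [Finset.mem_erase] at hl
        exact hK.1 hsK hl.2 (Ne.symm hl.1)
    · refine hf _ (clique_insert hK (v := v) ?_)
      intro k hk
      rcases hb' k hk with h | h
      · exact h
      · exact absurd ⟨k, hk, h⟩ hex
  | false =>
    have hb' : ∀ x ∈ K, ¬ (G.Adj v x ∨ x ∈ S) := fun x hx => of_decide_eq_false (hb x hx)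
    have hvK : v ∉ K := by
      intro hvK
      have hcard : 1 < K.card := by rw [hK.2]; omega
      obtain ⟨a, ha, hav⟩ := Finset.exists_mem_ne hcard v
      exact hb' a ha (Or.inl (hK.1 hvK ha (Ne.symm hav)))
    obtain ⟨k, hk, hkS⟩ := hSm K (fun x hx => (hW x).2
      ⟨fun e => hvK (e ▸ hx), fun h => hb' x hx (Or.inl h)⟩) hK
    exact hb' k hk (Or.inr hkS)

end Pool.Agent.H92.TP
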