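import Mathlib
import Pool.Agent.H92.TD.Asm2
import Pool.Agent.H92.TP.Col

/-!
MP_5aa732_co: assembly for graphs in which every induced subgraph has a vertex whose
non-neighbours induce a P_4-free graph.
-/

set_option autoImplicit false
set_option linter.unusedSectionVars false
set_option linter.unusedVariables false

namespace Pool.Agent.H92.TP

open SimpleGraph Finset Pool.Agent.H92.TD

variable {V : Type} [Fintype V] {G : SimpleGraph V} {m : ℕ}

/-- embedding of `P_4` from four vertices -/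
theorem noP4_of_isEmpty {s : Set V} (h : IsEmpty (SimpleGraph.pathGraph 4 ↪g G.induce s))
    {a b c d : V} (ha : a ∈ s) (hb : b ∈ s) (hc : c ∈ s) (hd : d ∈ s)
    (nac : a ≠ c) (nbd : b ≠ d) (nad : a ≠ d) (hab : G.Adj a b) (hbc : G.Adj b c) (hcd : G.Adj c d)
    (hac : ¬ G.Adj a c) (hbd : ¬ G.Adj b d) (had : ¬ G.Adj a d) : False := by
  have e1 : a ≠ b := G.ne_of_adj hab
  have e2 : b ≠ c := G.ne_of_adj hbc
  have e3 : c ≠ d := G.ne_of_adj hcd
  let f : Fin 4 → s := ![⟨a, ha⟩, ⟨b, hb⟩, ⟨c, hc⟩, ⟨d, hd⟩]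
  have hf : Function.Injective f := by
    intro i j hij
    fin_cases i <;> fin_cases j <;> simp_all [f]
  refine h.false ⟨⟨f, hf⟩, ?_⟩
  intro i j
  have hca : ¬ G.Adj c a := fun h => hac h.symm
  have hdb : ¬ G.Adj d b := fun h => hbd h.symm
  have hda : ¬ G.Adj d a := fun h => had h.symm
  have hba := hab.symm
  have hcb := hbc.symm
  have hdc := hcd.symm
  fin_cases i <;> fin_cases j <;>
    simp [f, SimpleGraph.pathGraph_adj, hab, hbc, hcd, hac, hbd, had, hca, hdb, hda, hba, hcb, hdc]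

theorem pasm_back [DecidableEq V] (h5 : C5free G)
    (hH : ∀ H : Finset V, H.Nonempty → ∃ v ∈ H,
      IsEmpty (SimpleGraph.pathGraph 4 ↪g G.induce {x : V | x ∈ H ∧ x ≠ v ∧ ¬ G.Adj v x}))
    (S : Finset V) (hS : ∃ u ∈ S, ∃ v ∈ S, G.Adj u v) :
    ∃ A : Finset V, A ⊆ S ∧
      (∀ T : Finset V, T ⊆ A → G.IsClique (T : Set V) →
          ∃ T' : Finset V, T' ⊆ S ∧ G.IsClique (T' : Set V) ∧ T.card < T'.card) ∧
      (∀ T : Finset V, T ⊆ S \ A → G.IsClique (T : Set V) →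
          ∃ T' : Finset V, T' ⊆ S ∧ G.IsClique (T' : Set V) ∧ T.card < T'.card) := by
  refine asm_back_gen (fun _ _ => True) S ?_ hS
  intro m hm hf _
  obtain ⟨u, hu, _⟩ := hS
  obtain ⟨v, hv, hE⟩ := hH S ⟨u, hu⟩
  refine col_of_noP4 hm hf (c5free_induce _ h5) ⟨v, hv⟩ ?_
  intro a b c d ha hb hc hd nva nvb nvc nvd nac nbd nad hab hbc hcd hac hbd had
  refine noP4_of_isEmpty hE (a := a.1) (b := b.1) (c := c.1) (d := d.1) ?_ ?_ ?_ ?_
    (fun e => nac (Subtype.ext e)) (fun e => nbd (Subtype.ext e)) (fun e => nad (Subtype.ext e))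
    hab hbc hcd hac hbd had
  · exact ⟨by exact_mod_cast a.2, fun e => ha (Subtype.ext e), nva⟩
  · exact ⟨by exact_mod_cast b.2, fun e => hb (Subtype.ext e), nvb⟩
  · exact ⟨by exact_mod_cast c.2, fun e => hc (Subtype.ext e), nvc⟩
  · exact ⟨by exact_mod_cast d.2, fun e => hd (Subtype.ext e), nvd⟩

end Pool.Agent.H92.TP
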